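import Pool.Agent.Q161.ESV.Stm4

set_option autoImplicit false

/-!
# Project ESV (helper161), job EXA (helper123): an example

Instead of the `S_3`-extension in the docstring we use the cyclic cubic subfield of `ℚ(ζ_7)`: the matrix of order three.
-/

namespace Pool.Agent.Q123.ESV

open Pool.Agent.Q161.ESV

/-- the homomorphism `(ℤ/7)ˣ → GL_2(ℤ)` with image of order three, as a function -/
def mf (x : ZMod 7) : Matrix (Fin 2) (Fin 2) ℤ :=
  (![1, 1, !![-1, 1; -1, 0], !![0, -1; 1, -1], !![0, -1; 1, -1], !![-1, 1; -1, 0], 1] :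
    Fin 7 → Matrix (Fin 2) (Fin 2) ℤ) x

/-- the same on the units -/
def mh : (ZMod 7)ˣ →* Matrix (Fin 2) (Fin 2) ℤ where
  toFun u := mf (u : ZMod 7)
  map_one' := by decide
  map_mul' := by decide

/-- the representation of the units -/
noncomputable def rh : (ZMod 7)ˣ →* GL (Fin 2) ℤ_[2] :=
  (((Int.castRingHom ℤ_[2]).mapMatrix (m := Fin 2)).toMonoidHom.comp mh).toHomUnits

theorem rh_coe (u : (ZMod 7)ˣ) : (rh u : Matrix (Fin 2) (Fin 2) ℤ_[2]) =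
    (Int.castRingHom ℤ_[2]).mapMatrix (mf (u : ZMod 7)) := rfl

theorem rh_mod (u : (ZMod 7)ˣ) :
    (PadicInt.toZMod (p := 2)).mapMatrix (rh u : Matrix (Fin 2) (Fin 2) ℤ_[2]) =
      (Int.castRingHom (ZMod 2)).mapMatrix (mf (u : ZMod 7)) := by
  rw [rh_coe]
  ext i j
  simp only [RingHom.mapMatrix_apply, Matrix.map_apply]
  rw [← RingHom.comp_apply]
  congr 1
  exact RingHom.ext_int _ _

/-- the matrix of order three modulo two -/
def M1 : Matrix (Fin 2) (Fin 2) (ZMod 2) := !![0, 1; 1, 1]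

theorem M1_eq : (Int.castRingHom (ZMod 2)).mapMatrix (mf 3) = M1 := by
  decide

theorem M1_fix : ∀ v : Fin 2 → ZMod 2, M1.mulVec v = v → v = 0 := by decide

theorem M1_gen : ∀ u : Fin 2 → ZMod 2, u ≠ 0 → ∀ w : Fin 2 → ZMod 2,
    ∃ a b : ZMod 2, w = a • u + b • M1.mulVec u := by decide

theorem root_norm {l : ℕ} [Fact l.Prime] (hl : ¬ l ∣ 7) {y : PadicAlgCl l} (h7 : y ^ 7 = 1)
    (h1 : ‖y - 1‖ < 1) : y = 1 := by
  by_contra hne
  have hy : ‖y‖ = 1 := by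
    have h := congrArg norm h7
    rw [norm_pow, norm_one] at h
    exact (pow_eq_one_iff_of_nonneg (norm_nonneg _) (by norm_num)).1 h
  have hs : 1 + y + y ^ 2 + y ^ 3 + y ^ 4 + y ^ 5 + y ^ 6 = 0 := by
    have h2 : (y - 1) * (1 + y + y ^ 2 + y ^ 3 + y ^ 4 + y ^ 5 + y ^ 6) = 0 := by
      have : (y - 1) * (1 + y + y ^ 2 + y ^ 3 + y ^ 4 + y ^ 5 + y ^ 6) = y ^ 7 - 1 := by ring
      rw [this, h7, sub_self]
    rcases mul_eq_zero.1 h2 with h3 | h3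
    · exact absurd (sub_eq_zero.1 h3) hne
    · exact h3
  have h7' : (7 : PadicAlgCl l) = -((y - 1) * (6 + 5 * y + 4 * y ^ 2 + 3 * y ^ 3 + 2 * y ^ 4 + y ^ 5)) := by
    have e : (y - 1) * (6 + 5 * y + 4 * y ^ 2 + 3 * y ^ 3 + 2 * y ^ 4 + y ^ 5) =
        (1 + y + y ^ 2 + y ^ 3 + y ^ 4 + y ^ 5 + y ^ 6) - 7 := by ring
    rw [e, hs]
    ring
  have hle : ∀ n : ℕ, ‖(n : PadicAlgCl l)‖ ≤ 1 := fun n => IsUltrametricDist.norm_natCast_le_one _ n
  have hadd : ∀ a b : PadicAlgCl l, ‖a‖ ≤ 1 → ‖b‖ ≤ 1 → ‖a + b‖ ≤ 1 := fun a b ha hb =>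
    (IsUltrametricDist.norm_add_le_max a b).trans (max_le ha hb)
  have hmul : ∀ (n k : ℕ), ‖(n : PadicAlgCl l) * y ^ k‖ ≤ 1 := by
    intro n k
    rw [norm_mul, norm_pow, hy, one_pow, mul_one]
    exact hle n
  have hb : ‖6 + 5 * y + 4 * y ^ 2 + 3 * y ^ 3 + 2 * y ^ 4 + y ^ 5‖ ≤ 1 := by
    have e : 6 + 5 * y + 4 * y ^ 2 + 3 * y ^ 3 + 2 * y ^ 4 + y ^ 5 =
        ((6 : ℕ) : PadicAlgCl l) * y ^ 0 + ((5 : ℕ) : PadicAlgCl l) * y ^ 1 +
        ((4 : ℕ) : PadicAlgCl l) * y ^ 2 + ((3 : ℕ) : PadicAlgCl l) * y ^ 3 +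
        ((2 : ℕ) : PadicAlgCl l) * y ^ 4 + ((1 : ℕ) : PadicAlgCl l) * y ^ 5 := by
      push_cast
      ring
    rw [e]
    exact hadd _ _ (hadd _ _ (hadd _ _ (hadd _ _ (hadd _ _ (hmul _ _) (hmul _ _)) (hmul _ _))
      (hmul _ _)) (hmul _ _)) (hmul _ _)
  have h8 : ‖(7 : PadicAlgCl l)‖ < 1 := by
    rw [h7', norm_neg, norm_mul]
    calc ‖y - 1‖ * ‖6 + 5 * y + 4 * y ^ 2 + 3 * y ^ 3 + 2 * y ^ 4 + y ^ 5‖ ≤ ‖y - 1‖ * 1 :=
          mul_le_mul_of_nonneg_left hb (norm_nonneg _)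
      _ = ‖y - 1‖ := mul_one _
      _ < 1 := h1
  have h9 : ‖(7 : PadicAlgCl l)‖ = 1 := by
    have e : (7 : PadicAlgCl l) = algebraMap ℚ_[l] (PadicAlgCl l) ((7 : ℕ) : ℚ_[l]) := by
      rw [map_natCast]
      norm_num
    rw [e]
    have h10 : ‖algebraMap ℚ_[l] (PadicAlgCl l) ((7 : ℕ) : ℚ_[l])‖ = ‖((7 : ℕ) : ℚ_[l])‖ :=
      norm_algebraMap' (PadicAlgCl l) ((7 : ℕ) : ℚ_[l])
    rw [h10]
    rw [Padic.norm_natCast_eq_one_iff]
    exact ((Fact.out : l.Prime).coprime_iff_not_dvd).2 hl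
  linarith

/-- the example over a field over which the cyclotomic polynomial is irreducible -/
theorem exF (F : Type) [Field F] [CharZero F] (hirr : Irreducible (Polynomial.cyclotomic 7 F)) :
    ∃ ρ : GF F →* GL (Fin 2) ℤ_[2], AdV ρ := by
  classical
  have h7 : NeZero ((7 : ℕ) : F) := ⟨by norm_num⟩
  obtain ⟨ζ, hζ⟩ := HasEnoughRootsOfUnity.exists_primitiveRoot (AlgebraicClosure F) 7
  have hsp : ∀ σ : GF F, ζ ^ (hζ.autToPow F σ : ZMod 7).val = σ ζ := fun σ => hζ.autToPow_spec F σ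
  have hρ : ∀ σ : GF F, σ ζ = ζ → hζ.autToPow F σ = 1 := by
    intro σ hσ
    have h1 := hsp σ
    rw [hσ] at h1
    have h2 : ζ ^ (hζ.autToPow F σ : ZMod 7).val = ζ ^ 1 := by rw [h1, pow_one]
    have h3 := hζ.pow_inj (ZMod.val_lt _) (by norm_num) h2
    ext
    rw [Units.val_one]
    apply ZMod.val_injective
    rw [h3]
    rfl
  have hex : ∃ σ : GF F, (hζ.autToPow F σ : ZMod 7) = 3 := by
    have hζ3 : IsPrimitiveRoot (ζ ^ 3) 7 := hζ.pow_of_coprime 3 (by norm_num)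
    have e1 := hζ.minpoly_eq_cyclotomic_of_irreducible hirr
    have e2 := hζ3.minpoly_eq_cyclotomic_of_irreducible hirr
    have hc : IsConjRoot F ζ (ζ ^ 3) := by
      unfold IsConjRoot
      rw [← e1, ← e2]
    obtain ⟨σ, hσ⟩ := isConjRoot_iff_exists_algEquiv.1 hc
    obtain ⟨σ', hσ'⟩ : ∃ σ' : GF F, σ' ζ = ζ ^ 3 := ⟨σ.symm, σ.symm_apply_eq.2 hσ.symm⟩
    refine ⟨σ', ?_⟩
    have h1 := hsp σ'
    rw [hσ'] at h1
    have h3 := hζ.pow_inj (ZMod.val_lt _) (by norm_num) h1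
    apply ZMod.val_injective
    rw [h3]
    rfl
  obtain ⟨σ0, hσ0⟩ := hex
  refine ⟨rh.comp (hζ.autToPow F), ?_, ?_, ?_, ?_⟩
  · apply continuous_of_continuousAt_one
    have hfin : FiniteDimensional F (IntermediateField.adjoin F {ζ}) :=
      IntermediateField.adjoin.finiteDimensional (hζ.isIntegral (by norm_num)).tower_top
    have hev : ∀ᶠ σ in nhds (1 : GF F), (rh.comp (hζ.autToPow F)) σ = 1 := by
      have hopen := (IntermediateField.adjoin F {ζ}).fixingSubgroup_isOpen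
      filter_upwards [hopen.mem_nhds (one_mem _)] with σ hσ
      rw [MonoidHom.comp_apply, hρ σ, map_one]
      exact hσ ⟨ζ, IntermediateField.mem_adjoin_simple_self F ζ⟩
    unfold ContinuousAt
    rw [map_one]
    exact tendsto_const_nhds.congr' (hev.mono fun σ hσ => hσ.symm)
  · intro v hv
    have h1 := hv σ0
    unfold act2 at h1
    rw [MonoidHom.comp_apply, rh_mod, hσ0, M1_eq] at h1
    exact M1_fix v h1
  · intro U hU
    by_cases hb : U = ⊥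
    · refine ⟨⊤, fun _ _ _ => Submodule.mem_top, ?_⟩
      rw [hb]
      exact isCompl_bot_top
    · obtain ⟨u, hu, hu0⟩ := Submodule.exists_mem_ne_zero_of_ne_bot hb
      have h1 := hU σ0 u hu
      unfold act2 at h1
      rw [MonoidHom.comp_apply, rh_mod, hσ0, M1_eq] at h1
      have htop : U = ⊤ := by
        rw [eq_top_iff]
        intro w _
        obtain ⟨a, b, hab⟩ := M1_gen u hu0 w
        rw [hab]
        exact U.add_mem (U.smul_mem a hu) (U.smul_mem b h1)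
      refine ⟨⊥, fun σ v hv => ?_, ?_⟩
      · rw [Submodule.mem_bot] at hv ⊢
        rw [hv, map_zero]
      · rw [htop]
        exact isCompl_top_bot
  · refine ⟨7, by norm_num, fun l _ hl ψ σ hσ => ?_⟩
    rw [MonoidHom.comp_apply, hρ σ, map_one]
    obtain ⟨τ, hc, hτ⟩ := hσ
    obtain ⟨k, hk⟩ : ∃ k, k = (hζ.autToPow F σ : ZMod 7).val := ⟨_, rfl⟩
    have h1 := hsp σ
    rw [← hk] at h1
    have hx7 : ψ ζ ^ 7 = 1 := by rw [← map_pow, hζ.pow_eq_one, map_one]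
    have hx1 : ‖ψ ζ‖ = 1 := by
      have h := congrArg norm hx7
      rw [norm_pow, norm_one] at h
      exact (pow_eq_one_iff_of_nonneg (norm_nonneg _) (by norm_num)).1 h
    have h2 := hτ (ψ ζ) hx1.le
    rw [hc ζ, ← h1, map_pow] at h2
    -- `‖x ^ k - x‖ < 1`
    have hx0 : ψ ζ ≠ 0 := by
      intro h0
      rw [h0, norm_zero] at hx1
      exact zero_ne_one hx1
    have h3 : ‖ψ ζ ^ k * ψ ζ ^ 6 - 1‖ < 1 := by
      have e : ψ ζ ^ k * ψ ζ ^ 6 - 1 = (ψ ζ ^ k - ψ ζ) * ψ ζ ^ 6 := by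
        rw [sub_mul, ← pow_succ' (ψ ζ) 6, hx7]
      rw [e, norm_mul, norm_pow, hx1, one_pow, mul_one]
      exact h2
    have h4 : (ψ ζ ^ k * ψ ζ ^ 6) ^ 7 = 1 := by
      rw [mul_pow, ← pow_mul, ← pow_mul, mul_comm k 7, mul_comm 6 7, pow_mul, pow_mul, hx7, one_pow,
        one_pow, mul_one]
    have h5 := root_norm hl h4 h3
    have h6 : ψ (σ ζ) = ψ ζ := by
      rw [← h1, map_pow]
      calc ψ ζ ^ k = ψ ζ ^ k * ψ ζ ^ 7 := by rw [hx7, mul_one]
        _ = (ψ ζ ^ k * ψ ζ ^ 6) * ψ ζ := by ring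
        _ = ψ ζ := by rw [h5, one_mul]
    exact ψ.injective h6

/-- JOB EXA -/
theorem exa : S_EXA := exF ℚ (Polynomial.cyclotomic.irreducible_rat (by norm_num))

end Pool.Agent.Q123.ESV
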